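import Pool.Agent.W91.BH.Stm

set_option autoImplicit false

open MeasureTheory
open scoped ENNReal

namespace Pool.Agent.W158.BHCov1

open Pool.Agent.W91.BH

theorem two_rpow_neg (k : ℕ) (d : ℝ) :
    (2 : ℝ) ^ (-((k : ℝ) * d)) = ((1 / 2 : ℝ) ^ k) ^ d := by
  rw [one_div, inv_pow, ← Real.rpow_natCast, Real.inv_rpow (by positivity), ← Real.rpow_mul (by norm_num),
    Real.rpow_neg (by norm_num)]

theorem exists_level (d : ℝ) (hd : 0 < d) (D : ℝ) (h0 : 0 ≤ D) (h1 : D ≤ 1) (η : ℝ) (hη : 0 < η) :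
    ∃ k : ℕ, D ≤ (1 / 2 : ℝ) ^ k ∧ (2 : ℝ) ^ (-((k : ℝ) * d)) ≤ (2 : ℝ) ^ d * D ^ d + η := by
  rcases h0.eq_or_lt with h | h
  · have h2 : (1 / 2 : ℝ) ^ d < 1 := Real.rpow_lt_one (by norm_num) (by norm_num) hd
    obtain ⟨k, hk⟩ := exists_pow_lt_of_lt_one hη h2
    refine ⟨k, by rw [← h]; positivity, ?_⟩
    rw [two_rpow_neg, ← Real.rpow_natCast, ← Real.rpow_mul (by norm_num), mul_comm,
      Real.rpow_mul (by norm_num), Real.rpow_natCast]
    have : 0 ≤ (2 : ℝ) ^ d * D ^ d := by positivity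
    linarith
  · obtain ⟨k, hk1, hk2⟩ := exists_nat_pow_near_of_lt_one h h1 (by norm_num : (0 : ℝ) < 1 / 2)
      (by norm_num)
    refine ⟨k, hk2, ?_⟩
    rw [two_rpow_neg]
    have h3 : (1 / 2 : ℝ) ^ k ≤ 2 * D := by
      rw [pow_succ] at hk1
      linarith
    have h4 : ((1 / 2 : ℝ) ^ k) ^ d ≤ (2 * D) ^ d :=
      Real.rpow_le_rpow (by positivity) h3 hd.le
    rw [Real.mul_rpow (by norm_num) h0] at h4
    linarith

/-- the cubes of level `k` near the point `x` -/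
noncomputable def near (n k : ℕ) (x : E n) : Finset (Idx n) :=
  (Fintype.piFinset (fun i => Finset.Icc (⌊(2 : ℝ) ^ k * x i⌋ - 3) (⌊(2 : ℝ) ^ k * x i⌋ + 3))).image
    (fun z => (k, z))

theorem near_card (n k : ℕ) (x : E n) : (near n k x).card ≤ 7 ^ n := by
  unfold near
  refine Finset.card_image_le.trans ?_
  rw [Fintype.card_piFinset]
  refine (Finset.prod_le_pow_card _ _ 7 (fun i _ => ?_)).trans ?_
  · rw [Int.card_Icc]
    omega
  · simp

theorem near_level (n k : ℕ) (x : E n) (Q : Idx n) (hQ : Q ∈ near n k x) : Q.1 = k := by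
  unfold near at hQ
  rw [Finset.mem_image] at hQ
  obtain ⟨z, _, rfl⟩ := hQ
  rfl

theorem near_mem (n k : ℕ) (x y : E n) (h : dist y x < 2 * (1 / 2 : ℝ) ^ k) :
    ∃ Q ∈ near n k x, y ∈ cube n Q := by
  refine ⟨(k, fun i => ⌊(2 : ℝ) ^ k * y i⌋), ?_, ?_⟩
  · unfold near
    rw [Finset.mem_image]
    refine ⟨fun i => ⌊(2 : ℝ) ^ k * y i⌋, ?_, rfl⟩
    rw [Fintype.mem_piFinset]
    intro i
    have h1 : |y i - x i| ≤ dist y x := by
      rw [dist_eq_norm]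
      have := PiLp.norm_apply_le (y - x) i
      simpa [Real.norm_eq_abs] using this
    have h2 : |(2 : ℝ) ^ k * y i - (2 : ℝ) ^ k * x i| < 2 := by
      rw [← mul_sub, abs_mul, abs_of_pos (by positivity : (0 : ℝ) < 2 ^ k)]
      have h3 : |y i - x i| < 2 * (1 / 2 : ℝ) ^ k := lt_of_le_of_lt h1 h
      have h4 : (2 : ℝ) ^ k * (1 / 2 : ℝ) ^ k = 1 := by
        rw [← mul_pow]
        norm_num
      have h5 : (0 : ℝ) < 2 ^ k := by positivity
      nlinarith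
    rw [abs_lt] at h2
    have a1 := Int.floor_le ((2 : ℝ) ^ k * y i)
    have a2 := Int.lt_floor_add_one ((2 : ℝ) ^ k * y i)
    have a3 := Int.floor_le ((2 : ℝ) ^ k * x i)
    have a4 := Int.lt_floor_add_one ((2 : ℝ) ^ k * x i)
    rw [Finset.mem_Icc]
    constructor
    · have : ((⌊(2 : ℝ) ^ k * x i⌋ : ℝ)) < (⌊(2 : ℝ) ^ k * y i⌋ : ℝ) + 3 := by linarith
      have : ⌊(2 : ℝ) ^ k * x i⌋ < ⌊(2 : ℝ) ^ k * y i⌋ + 3 := by exact_mod_cast this
      omega
    · have : ((⌊(2 : ℝ) ^ k * y i⌋ : ℝ)) < (⌊(2 : ℝ) ^ k * x i⌋ : ℝ) + 3 := by linarith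
      have : ⌊(2 : ℝ) ^ k * y i⌋ < ⌊(2 : ℝ) ^ k * x i⌋ + 3 := by exact_mod_cast this
      omega
  · intro i
    rfl

theorem sum_biUnion_le' {ι κ : Type} [DecidableEq κ] (T : Finset ι) (N : ι → Finset κ)
    (f : κ → ℝ) (hf : ∀ Q, 0 ≤ f Q) : ∑ Q ∈ T.biUnion N, f Q ≤ ∑ m ∈ T, ∑ Q ∈ N m, f Q := by
  classical
  induction T using Finset.induction_on with
  | empty => simp
  | insert a T ha ih =>
    rw [Finset.biUnion_insert, Finset.sum_insert ha]
    have h1 := Finset.sum_union_inter (s₁ := N a) (s₂ := T.biUnion N) (f := f)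
    have h2 : 0 ≤ ∑ Q ∈ N a ∩ T.biUnion N, f Q := Finset.sum_nonneg (fun Q _ => hf Q)
    linarith

theorem cov1 : S_COV1 := by
  classical
  intro n d K hd hK h0 ε hε
  -- the constants
  set c : ℝ := (7 : ℝ) ^ n * ((2 : ℝ) ^ d + 1) with hc
  have hc0 : 0 < c := by positivity
  set δ : ℝ := ε / (2 * c) with hδ
  have hδ0 : 0 < δ := by positivity
  -- the cover
  rw [Measure.hausdorffMeasure_apply] at h0
  have h1 : (⨅ (t : ℕ → Set (E n)) (_ : K ⊆ ⋃ n, t n) (_ : ∀ n, Metric.ediam (t n) ≤ (1 : ℝ≥0∞)),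
          ∑' n, ⨆ _ : (t n).Nonempty, Metric.ediam (t n) ^ d) < ENNReal.ofReal δ := by
    refine lt_of_le_of_lt ?_ (ENNReal.ofReal_pos.2 hδ0)
    rw [← h0]
    exact le_iSup₂_of_le (1 : ℝ≥0∞) zero_lt_one le_rfl
  simp only [iInf_lt_iff] at h1
  obtain ⟨t, ht1, ht2, ht3⟩ := h1
  set D : ℕ → ℝ := fun m => (Metric.ediam (t m)).toReal with hD
  have hDtop : ∀ m, Metric.ediam (t m) ≠ ∞ := fun m =>
    ne_top_of_le_ne_top ENNReal.one_ne_top (ht2 m)
  have hD0 : ∀ m, 0 ≤ D m := fun m => ENNReal.toReal_nonneg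
  have hD1 : ∀ m, D m ≤ 1 := fun m => by
    have := ENNReal.toReal_mono ENNReal.one_ne_top (ht2 m)
    simpa using this
  have hex : ∀ m : ℕ, ∃ k : ℕ, D m ≤ (1 / 2 : ℝ) ^ k ∧
      (2 : ℝ) ^ (-((k : ℝ) * d)) ≤ (2 : ℝ) ^ d * (D m) ^ d + δ / 2 / 2 ^ m :=
    fun m => exists_level d hd (D m) (hD0 m) (hD1 m) _ (by positivity)
  choose k hk1 hk2 using hex
  -- finitely many balls
  let U : ℕ → Set (E n) := fun m =>
    if h : (t m).Nonempty then Metric.ball h.some (2 * (1 / 2 : ℝ) ^ (k m)) else ∅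
  have hUo : ∀ m, IsOpen (U m) := by
    intro m
    by_cases h : (t m).Nonempty
    · simp only [U, dif_pos h]
      exact Metric.isOpen_ball
    · simp only [U, dif_neg h]
      exact isOpen_empty
  have hUK : K ⊆ ⋃ m, U m := by
    intro x hx
    obtain ⟨m, hm⟩ := Set.mem_iUnion.1 (ht1 hx)
    refine Set.mem_iUnion.2 ⟨m, ?_⟩
    have h : (t m).Nonempty := ⟨x, hm⟩
    simp only [U, dif_pos h]
    rw [Metric.mem_ball]
    have h2 : edist x h.some ≤ Metric.ediam (t m) := Metric.edist_le_ediam_of_mem hm h.some_mem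
    have h3 : dist x h.some ≤ D m := by
      rw [dist_edist]
      exact ENNReal.toReal_mono (hDtop m) h2
    have h4 : (0 : ℝ) < (1 / 2 : ℝ) ^ (k m) := by positivity
    have h5 := hk1 m
    linarith
  obtain ⟨T, hT⟩ := hK.elim_finite_subcover U hUo hUK
  -- the cubes
  let T' : Finset ℕ := T.filter (fun m => (t m).Nonempty)
  let N : ℕ → Finset (Idx n) := fun m =>
    if h : (t m).Nonempty then near n (k m) h.some else ∅
  have hNlev : ∀ m, ∀ Q ∈ N m, Q.1 = k m := by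
    intro m Q hQ
    by_cases h : (t m).Nonempty
    · simp only [N, dif_pos h] at hQ
      exact near_level _ _ _ _ hQ
    · simp only [N, dif_neg h] at hQ
      exact absurd hQ (Finset.notMem_empty _)
  have hNcard : ∀ m, (N m).card ≤ 7 ^ n := by
    intro m
    by_cases h : (t m).Nonempty
    · simp only [N, dif_pos h]
      exact near_card _ _ _
    · simp only [N, dif_neg h]
      simp
  refine ⟨T'.biUnion N, ?_, ?_⟩
  · intro x hx
    obtain ⟨m, hm, hxm⟩ := Set.mem_iUnion₂.1 (hT hx)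
    by_cases h : (t m).Nonempty
    · simp only [U, dif_pos h] at hxm
      rw [Metric.mem_ball] at hxm
      obtain ⟨Q, hQ, hxQ⟩ := near_mem n (k m) h.some x hxm
      refine Set.mem_iUnion₂.2 ⟨Q, ?_, hxQ⟩
      rw [Finset.mem_biUnion]
      refine ⟨m, Finset.mem_filter.2 ⟨hm, h⟩, ?_⟩
      simp only [N, dif_pos h]
      exact hQ
    · simp only [U, dif_neg h] at hxm
      exact absurd hxm (Set.notMem_empty _)
  · have e1 : ∑ Q ∈ T'.biUnion N, (2 : ℝ) ^ (-((Q.1 : ℝ) * d)) ≤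
        ∑ m ∈ T', ∑ Q ∈ N m, (2 : ℝ) ^ (-((Q.1 : ℝ) * d)) := by
      exact sum_biUnion_le' T' N _ (fun Q => by positivity)
    have e2 : ∀ m ∈ T', ∑ Q ∈ N m, (2 : ℝ) ^ (-((Q.1 : ℝ) * d)) ≤
        (7 : ℝ) ^ n * ((2 : ℝ) ^ d * (D m) ^ d + δ / 2 / 2 ^ m) := by
      intro m _
      calc ∑ Q ∈ N m, (2 : ℝ) ^ (-((Q.1 : ℝ) * d)) = ∑ Q ∈ N m, (2 : ℝ) ^ (-((k m : ℝ) * d)) :=
            Finset.sum_congr rfl (fun Q hQ => by rw [hNlev m Q hQ])
        _ = (N m).card * (2 : ℝ) ^ (-((k m : ℝ) * d)) := by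
            rw [Finset.sum_const, nsmul_eq_mul]
        _ ≤ (7 : ℝ) ^ n * (2 : ℝ) ^ (-((k m : ℝ) * d)) := by
            refine mul_le_mul_of_nonneg_right ?_ (by positivity)
            exact_mod_cast hNcard m
        _ ≤ _ := mul_le_mul_of_nonneg_left (hk2 m) (by positivity)
    have e3 : ∑ m ∈ T', (D m) ^ d ≤ δ := by
      have f1 : ∑ m ∈ T', Metric.ediam (t m) ^ d ≤
          ∑' m, ⨆ _ : (t m).Nonempty, Metric.ediam (t m) ^ d := by
        calc ∑ m ∈ T', Metric.ediam (t m) ^ d =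
            ∑ m ∈ T', ⨆ _ : (t m).Nonempty, Metric.ediam (t m) ^ d :=
              Finset.sum_congr rfl (fun m hm => by
                rw [iSup_pos (Finset.mem_filter.1 hm).2])
          _ ≤ _ := ENNReal.sum_le_tsum _
      have f2 : (∑ m ∈ T', Metric.ediam (t m) ^ d).toReal ≤ δ := by
        have := ENNReal.toReal_mono ENNReal.ofReal_ne_top (f1.trans ht3.le)
        rwa [ENNReal.toReal_ofReal hδ0.le] at this
      rw [ENNReal.toReal_sum (fun m _ => ENNReal.rpow_ne_top_of_nonneg hd.le (hDtop m))] at f2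
      refine le_trans (le_of_eq ?_) f2
      exact Finset.sum_congr rfl (fun m _ => by rw [← ENNReal.toReal_rpow])
    have e4 : ∑ m ∈ T', δ / 2 / 2 ^ m ≤ δ := by
      have := (hasSum_geometric_two' δ)
      exact sum_le_hasSum T' (fun m _ => by positivity) this
    calc ∑ Q ∈ T'.biUnion N, (2 : ℝ) ^ (-((Q.1 : ℝ) * d)) ≤
        ∑ m ∈ T', ∑ Q ∈ N m, (2 : ℝ) ^ (-((Q.1 : ℝ) * d)) := e1
      _ ≤ ∑ m ∈ T', (7 : ℝ) ^ n * ((2 : ℝ) ^ d * (D m) ^ d + δ / 2 / 2 ^ m) :=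
          Finset.sum_le_sum e2
      _ = (7 : ℝ) ^ n * ((2 : ℝ) ^ d * ∑ m ∈ T', (D m) ^ d + ∑ m ∈ T', δ / 2 / 2 ^ m) := by
          rw [← Finset.mul_sum, Finset.sum_add_distrib, Finset.mul_sum]
      _ ≤ (7 : ℝ) ^ n * ((2 : ℝ) ^ d * δ + δ) := by
          refine mul_le_mul_of_nonneg_left ?_ (by positivity)
          have := mul_le_mul_of_nonneg_left e3 (by positivity : (0 : ℝ) ≤ (2 : ℝ) ^ d)
          linarith
      _ = c * δ := by rw [hc]; ring
      _ = ε / 2 := by rw [hδ]; field_simp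
      _ < ε := by linarith

end Pool.Agent.W158.BHCov1
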